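import Pool.Agent.Q255.MK.Low4
import Pool.Agent.Q255.FG.U0
import Pool.Agent.Q137.MK.SUP
import Pool.Agent.Q137.MK.FUB
import Pool.Agent.Q153.MK.Sq
import Pool.Agent.Q153.MK.D2
import Pool.Agent.Q153.MK.Dkb
import Pool.Agent.Q187.MK.LTM
import Pool.Agent.Q187.MK.TAIL
import Pool.Agent.Q176.MK.BAD
import Pool.Agent.Q176.MK.HMT
import Pool.Agent.Q211.FG.LS

/-!
# The moments of all orders of almost every twist of zeta: the freezing transition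

`f` is a random completely multiplicative function with independent values, uniform on the unit circle, at
the primes, and `Z(t) = ∑_{n ≤ t} f(n) n^(-1/2-it)` (for `f = 1` this is `ζ(1/2+it) + O(t^(-1/2))`).  For almost
every `f`, uniformly in ALL real `k ≥ 0`, with `k = κ (log T / log log T)^(1/2)`,

`∫_0^T |Z|^(2k) = T^(Φ(κ) + o(1 + κ))`, `Φ(κ) = 1 + κ²/2` for `κ ≤ √2`, `Φ(κ) = √2 κ` for `κ ≥ √2`.

The first expression is the order `T (log T)^(k²)` with the conjectured constant of Q1 (whose logarithm is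
asymptotic to `- k² log k`); so the conjectured law persists exactly up to `k ~ (2 log T / log log T)^(1/2)`
and then the moments freeze at the maximum.  The level sets and the maximum obey the exact laws predicted
for zeta by Farmer, Gonek and Hughes.
-/

set_option autoImplicit false

open MeasureTheory Finset

namespace Pool.Agent.Results.MP_112ba8_nt.FreezingTransition

/-- The uniform distribution on the angles `ω 0, ω 1, ω 2, …` (independent, uniform on the circle `ℝ/ℤ`). -/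
noncomputable def uniform : Measure (ℕ → UnitAddCircle) :=
  Measure.infinitePi fun _ => (volume : Measure UnitAddCircle)

/-- The completely multiplicative function with the value `exp(2 π i ω_p)` at the prime `p`. -/
noncomputable def twist (ω : ℕ → UnitAddCircle) (n : ℕ) : ℂ :=
  ∏ p ∈ n.primeFactors, ((ω p).toCircle : ℂ) ^ n.factorization p

/-- `Z(t) = ∑_{1 ≤ n ≤ t} f(n) n^(-1/2 - i t)`. -/
noncomputable def Z (ω : ℕ → UnitAddCircle) (t : ℝ) : ℂ :=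
  ∑ n ∈ Icc 1 ⌊t⌋₊, twist ω n * (n : ℂ) ^ (-(1 / 2 + t * Complex.I) : ℂ)

/-- `exp (v (log T log log T)^(1/2))`. -/
noncomputable def size (v T : ℝ) : ℝ := Real.exp (v * Real.sqrt (Real.log T * Real.log (Real.log T)))

/-- The level sets of `|Z|` on `(0, T]`. -/
def level (ω : ℕ → UnitAddCircle) (v T : ℝ) : Set ℝ := {t : ℝ | 0 < t ∧ t ≤ T ∧ size v T ≤ ‖Z ω t‖}

/-- The exponent `Φ`. -/
noncomputable def Phi (κ : ℝ) : ℝ := if κ ≤ Real.sqrt 2 then 1 + κ ^ 2 / 2 else Real.sqrt 2 * κ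

/-- For almost every `ω`, for every `ε > 0` and all `T ≥ T₀(ω, ε)`:
(1) for all real `k ≥ 0`, with `κ = k (log log T / log T)^(1/2)`, the moment `∫_0^T |Z|^(2k)` lies between
`T^(Φ(κ) - ε (1 + κ))` and `T^(Φ(κ) + ε (1 + κ))`;
(2) for all `v ≥ 0` the measure of the level set is at most `T^(1 - 2 v² + ε)`, and if `2 v² + ε ≤ 1` it is
at least `T^(1 - 2 v² - ε)`;
(3) the maximum of `|Z|` over `[0, T]` is between `size (1/√2 - ε) T` and `size (1/√2 + ε) T`. -/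
theorem result : ∀ᵐ ω ∂uniform, ∀ ε : ℝ, 0 < ε → ∃ T₀ : ℝ, 3 ≤ T₀ ∧ ∀ T : ℝ, T₀ ≤ T →
    (∀ k κ : ℝ, 0 ≤ k → κ = k * Real.sqrt (Real.log (Real.log T) / Real.log T) →
      T ^ (Phi κ - ε * (1 + κ)) ≤ ∫ t in (0 : ℝ)..T, ‖Z ω t‖ ^ (2 * k) ∧
      ∫ t in (0 : ℝ)..T, ‖Z ω t‖ ^ (2 * k) ≤ T ^ (Phi κ + ε * (1 + κ))) ∧
    (∀ v : ℝ, 0 ≤ v → volume.real (level ω v T) ≤ T ^ (1 - 2 * v ^ 2 + ε) ∧
      (2 * v ^ 2 + ε ≤ 1 → T ^ (1 - 2 * v ^ 2 - ε) ≤ volume.real (level ω v T))) ∧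
    (∀ t : ℝ, 0 ≤ t → t ≤ T → ‖Z ω t‖ ≤ size (1 / Real.sqrt 2 + ε) T) ∧
    (∃ t : ℝ, 0 < t ∧ t ≤ T ∧ size (1 / Real.sqrt 2 - ε) T ≤ ‖Z ω t‖) := by
  have hA := Pool.Agent.Q211.FG.a1
  have hONE := Pool.Agent.Q154.FG.one
  have hLG := Pool.Agent.Q154.FG.lg
  have hE := Pool.Agent.Q211.FG.expm hONE Pool.Agent.Q211.FG.prod
  have hU0 := Pool.Agent.Q255.FG.u0 hONE Pool.Agent.Q211.FG.prod hA
  have hLTM := Pool.Agent.Q187.MK.ltm Pool.Agent.Q299.FG.dom hU0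
  have hTAIL := Pool.Agent.Q187.MK.tail hLG hE
  have hBAD := Pool.Agent.Q176.MK.BAD.bad (Pool.Agent.Q176.MK.HMT.hmt Pool.Agent.Q299.FG.tup) hA
  have h1 := Pool.Agent.Q255.MK.ints Pool.Agent.Q153.MK.sq Pool.Agent.Q153.MK.d2 Pool.Agent.Q153.MK.dkb
    Pool.Agent.Q137.MK.fub
  have h2 := Pool.Agent.Q255.MK.max_as Pool.Agent.Q153.MK.sq Pool.Agent.Q137.MK.sup
  have h3 := Pool.Agent.Q255.MK.lower Pool.Agent.Q153.MK.sq Pool.Agent.Q137.MK.sup hLG hA hE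
    Pool.Agent.Q211.FG.ls hBAD hLTM hTAIL
  filter_upwards [h1, h2, h3] with ω hω1 hω2 hω3
  obtain ⟨T₁, hT13, hT₁⟩ := hω1
  have hb : ∃ T₀ : ℝ, 3 ≤ T₀ ∧ ∀ T : ℝ, T₀ ≤ T →
    ∀ k : ℕ, 1 ≤ k → ∫ t in (0 : ℝ)..T, ‖Z ω t‖ ^ (2 * k) ≤ T * Pool.Agent.Q255.MK.bs T k ^ (k ^ 2) :=
    ⟨T₁, hT13, fun T hT k hk => (hT₁ T hT k hk).1⟩
  have hup : ∀ ε : ℝ, 0 < ε → ∃ T₀ : ℝ, 3 ≤ T₀ ∧ ∀ T : ℝ, T₀ ≤ T →
      (∀ t : ℝ, 0 ≤ t → t ≤ T → ‖Z ω t‖ ≤ size (1 / Real.sqrt 2 + ε) T) ∧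
      (∀ v : ℝ, 0 ≤ v → volume.real (level ω v T) ≤ T ^ (1 - 2 * v ^ 2 + ε)) := by
    intro ε hε
    obtain ⟨T₃, hT33, hT₃⟩ := hω2 ε hε
    obtain ⟨T₄, hT43, hT₄⟩ := Pool.Agent.Q255.MK.level hb hω2
      (show 0 < min ε 1 from lt_min hε one_pos) (min_le_right _ _)
    refine ⟨max T₃ T₄, le_max_of_le_left hT33, fun T hT => ⟨?_, fun v hv => ?_⟩⟩
    · exact hT₃ T ((le_max_left _ _).trans hT)
    · refine le_trans (hT₄ T ((le_max_right _ _).trans hT) v hv) ?_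
      refine Real.rpow_le_rpow_of_exponent_le ?_ ?_
      · have := (le_max_left T₃ T₄).trans hT
        linarith
      · have := min_le_left ε 1
        linarith
  intro ε hε
  obtain ⟨T₂, hT23, hT₂⟩ := Pool.Agent.Q255.MK.moments hup hω3 ε hε
  obtain ⟨T₃, hT33, hT₃⟩ := hup ε hε
  obtain ⟨T₄, hT43, hT₄⟩ := hω3 ε hε
  obtain ⟨e, he⟩ : ∃ e, e = min ε (1 / 2) := ⟨_, rfl⟩
  have he0 : 0 < e := by rw [he]; exact lt_min hε (by norm_num)
  have he1 : e ≤ 1 / 2 := by rw [he]; exact min_le_right _ _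
  have heε : e ≤ ε := by rw [he]; exact min_le_left _ _
  obtain ⟨T₅, hT53, hT₅⟩ := hω3 e he0
  refine ⟨max (max T₂ T₃) (max T₄ T₅), le_max_of_le_left (le_max_of_le_left hT23), fun T hT => ?_⟩
  have ha : T₂ ≤ T := (le_max_left _ _).trans ((le_max_left _ _).trans hT)
  have hb' : T₃ ≤ T := (le_max_right _ _).trans ((le_max_left _ _).trans hT)
  have hc : T₄ ≤ T := (le_max_left _ _).trans ((le_max_right _ _).trans hT)
  have hd : T₅ ≤ T := (le_max_right _ _).trans ((le_max_right _ _).trans hT)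
  refine ⟨fun k κ hk hκ => hT₂ T ha k κ hk hκ, fun v hv => ⟨(hT₃ T hb').2 v hv, fun hvε => hT₄ T hc v hv hvε⟩,
    (hT₃ T hb').1, ?_⟩
  obtain ⟨s1, s2, s3, s4, s5⟩ := Pool.Agent.Q255.MK.sqrt2_facts
  have hv0 : 0 ≤ 1 / Real.sqrt 2 - e := by
    rw [s5]
    linarith
  have hv2 : 2 * (1 / Real.sqrt 2 - e) ^ 2 + e ≤ 1 := by
    rw [s5]
    nlinarith
  have h4 := hT₅ T hd _ hv0 hv2
  have hT0 : 0 < T := by linarith
  have h5 : 0 < volume.real (level ω (1 / Real.sqrt 2 - e) T) := lt_of_lt_of_le (by positivity) h4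
  have h6 : (level ω (1 / Real.sqrt 2 - e) T).Nonempty := by
    rw [Set.nonempty_iff_ne_empty]
    intro h7
    rw [h7] at h5
    simp at h5
  obtain ⟨t, ht1, ht2, ht3⟩ := h6
  refine ⟨t, ht1, ht2, le_trans ?_ ht3⟩
  exact Pool.Agent.Q255.MK.bg_mono_v (by linarith) T

end Pool.Agent.Results.MP_112ba8_nt.FreezingTransition
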