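import Pool.Agent.Q80.ZM.Glo6

/-!
High moments of the Riemann zeta function on the critical line and its local behaviour on the
scale `1 / log T`.
-/

set_option autoImplicit false

open MeasureTheory Filter Topology Set

namespace Pool.Agent.Results.MP_112ba8_nt.LocalRegularity

/-- The point `1/2 + it`. -/
noncomputable def pt (t : ℝ) : ℂ := 1 / 2 + t * Complex.I

/-- The Gaussian window with centre `T` and width `U`. -/
noncomputable def w (T U t : ℝ) : ℝ := Real.exp (-((t - T) / U) ^ 2)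

/-- The `2k`-th moment of `ζ` on the critical line in the window. -/
noncomputable def J (k : ℕ) (T U : ℝ) : ℝ := ∫ t : ℝ, ‖riemannZeta (pt t)‖ ^ (2 * k) * w T U t

/-- The closed disc with centre `1/2 + it` and radius `A / log T`. -/
noncomputable def disc (A T t : ℝ) : Set ℂ := Metric.closedBall (pt t) (A / Real.log T)

/-- The maximum of `|ζ|` over the disc. -/
noncomputable def maxDisc (A T t : ℝ) : ℝ := sSup ((fun s => ‖riemannZeta s‖) '' disc A T t)

/-- The number of zeros of `ζ` in the disc, with multiplicity. -/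
noncomputable def zeros (A T t : ℝ) : ℕ := ∑ᶠ s ∈ disc A T t, analyticOrderNatAt riemannZeta s

/-- The geometric mean of `|ζ(1/2 + iu)|` over `|u - t| ≤ A / log T`. -/
noncomputable def geomMean (A T t : ℝ) : ℝ :=
  Real.exp (Real.log T / (2 * A) *
    ∫ u in (t - A / Real.log T)..(t + A / Real.log T), Real.log ‖riemannZeta (pt u)‖)

/-- The heights `t` such that `1/2 + it` has distance at most `d` from a zero of `ζ`. -/
def nearZeros (d : ℝ) : Set ℝ := {t | ∃ ρ : ℂ, riemannZeta ρ = 0 ∧ ‖pt t - ρ‖ ≤ d}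

/-- Let `k ≥ 1` and `A > 0`; all statements are uniform over the windows `1 ≤ U ≤ T / log T`.
1. Weighted with `B ^ (number of zeros of ζ in the disc of radius A / log T about 1/2 + it)`, the
maximum of `|ζ|` over this disc still has a `2k`-th moment of at most the order of that of `|ζ|`.
2. The geometric mean of `|ζ|` over `|u - t| ≤ A / log T` has a `2k`-th moment of at least this
order.
3. The same holds for `|ζ|` on any set `E` that occupies at least the proportion `γ` of each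
interval of length `A / log T` in `[T/2, 3T/2]`.
4. The part of the moment that comes from the heights at distance at most `δ A / log T` from a zero
is at most a constant times `δ ^ (2k+1)` times the moment, uniformly in `0 < δ ≤ 1`. -/
theorem result (k : ℕ) (hk : 1 ≤ k) (A : ℝ) (hA : 0 < A) :
    (∀ B : ℝ, 1 < B → ∃ C T₀ : ℝ, ∀ T : ℝ, T₀ ≤ T → ∀ U : ℝ, 1 ≤ U → U ≤ T / Real.log T →
      ∫⁻ t : ℝ, ENNReal.ofReal (B ^ zeros A T t * maxDisc A T t ^ (2 * k) * w T U t) ≤
        ENNReal.ofReal (C * J k T U)) ∧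
    (∃ C T₀ : ℝ, ∀ T : ℝ, T₀ ≤ T → ∀ U : ℝ, 1 ≤ U → U ≤ T / Real.log T →
      ENNReal.ofReal (J k T U) ≤
        ENNReal.ofReal C * ∫⁻ t : ℝ, ENNReal.ofReal (geomMean A T t ^ (2 * k) * w T U t)) ∧
    (∀ γ : ℝ, 0 < γ → ∃ c T₀ : ℝ, 0 < c ∧ ∀ T : ℝ, T₀ ≤ T → ∀ U : ℝ, 1 ≤ U →
      U ≤ T / Real.log T → ∀ E : Set ℝ, MeasurableSet E →
      (∀ t ∈ Icc (T / 2) (3 * T / 2),
        γ * (A / Real.log T) ≤ volume.real (E ∩ Icc t (t + A / Real.log T))) →
      c * J k T U ≤ ∫ t in E, ‖riemannZeta (pt t)‖ ^ (2 * k) * w T U t) ∧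
    (∃ C T₀ : ℝ, ∀ T : ℝ, T₀ ≤ T → ∀ U : ℝ, 1 ≤ U → U ≤ T / Real.log T →
      ∀ δ : ℝ, 0 < δ → δ ≤ 1 →
        ∫ t in nearZeros (δ * (A / Real.log T)), ‖riemannZeta (pt t)‖ ^ (2 * k) * w T U t ≤
          C * δ ^ (2 * k + 1) * J k T U) := by
  have eJ : ∀ T U : ℝ, J k T U = Q97.MM.JJ k T U (1 / 2) := by
    intro T U
    unfold J Q97.MM.JJ
    refine integral_congr_ae (Eventually.of_forall fun t => ?_)
    have e : pt t = ((1 / 2 : ℝ) : ℂ) + t * Complex.I := by unfold pt; push_cast; ring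
    show ‖riemannZeta (pt t)‖ ^ (2 * k) * w T U t = _
    rw [e]
    rfl
  have hint : ∀ T U : ℝ, Q97.MM.Adm T U →
      Integrable fun t : ℝ => ‖riemannZeta (pt t)‖ ^ (2 * k) * w T U t := by
    intro T U h
    have h1 := Q97.MM.JJ_integrable k (T := T) (U := U) (x := 1 / 2) h.pos
      (by linarith [h.1]) h.le (by norm_num) (by norm_num)
    refine h1.congr (Eventually.of_forall fun t => ?_)
    have e : pt t = ((1 / 2 : ℝ) : ℂ) + t * Complex.I := by unfold pt; push_cast; ring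
    show _ = ‖riemannZeta (pt t)‖ ^ (2 * k) * w T U t
    rw [e]
    rfl
  have hnn : ∀ T U t : ℝ, 0 ≤ ‖riemannZeta (pt t)‖ ^ (2 * k) * w T U t := fun T U t =>
    mul_nonneg (by positivity) (Real.exp_pos _).le
  have hJ0 : ∀ T U : ℝ, 0 ≤ J k T U := fun T U => integral_nonneg fun t => hnn T U t
  refine ⟨fun B hB => ?_, ?_, fun γ hγ => ?_, ?_⟩
  · obtain ⟨C, hC, hC'⟩ := Pool.Agent.Q80.ZM.part1 hk hA hB
    obtain ⟨T₀, h0⟩ := eventually_atTop.1 hC'
    refine ⟨C, max T₀ 3, fun T hT U h1 h2 => ?_⟩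
    rw [eJ]
    exact h0 T ((le_max_left _ _).trans hT) U ⟨(le_max_right _ _).trans hT, h1, h2⟩
  · obtain ⟨C, hC, hC'⟩ := Pool.Agent.Q80.ZM.part2 k hA
    obtain ⟨T₀, h0⟩ := eventually_atTop.1 hC'
    refine ⟨C, max T₀ 3, fun T hT U h1 h2 => ?_⟩
    rw [eJ]
    exact h0 T ((le_max_left _ _).trans hT) U ⟨(le_max_right _ _).trans hT, h1, h2⟩
  · obtain ⟨c, hc, hc'⟩ := Pool.Agent.Q80.ZM.part3 k hA hγ
    obtain ⟨T₀, h0⟩ := eventually_atTop.1 hc'
    refine ⟨c, max T₀ 3, hc, fun T hT U h1 h2 E mE hE => ?_⟩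
    have hadm : Q97.MM.Adm T U := ⟨(le_max_right _ _).trans hT, h1, h2⟩
    have h3 := h0 T ((le_max_left _ _).trans hT) U hadm E mE hE
    have h4 : ∫⁻ t in E, ENNReal.ofReal (‖riemannZeta (pt t)‖ ^ (2 * k) * w T U t) =
        ENNReal.ofReal (∫ t in E, ‖riemannZeta (pt t)‖ ^ (2 * k) * w T U t) :=
      (ofReal_integral_eq_lintegral_ofReal (hint T U hadm).integrableOn
        (Eventually.of_forall fun t => hnn T U t)).symm
    rw [eJ]
    have h5 : ENNReal.ofReal (c * Q97.MM.JJ k T U (1 / 2)) ≤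
        ENNReal.ofReal (∫ t in E, ‖riemannZeta (pt t)‖ ^ (2 * k) * w T U t) := by
      rw [← h4]
      exact h3
    exact (ENNReal.ofReal_le_ofReal_iff (integral_nonneg fun t => hnn T U t)).1 h5
  · obtain ⟨C, hC, hC'⟩ := Pool.Agent.Q80.ZM.part4 hk hA
    obtain ⟨T₀, h0⟩ := eventually_atTop.1 hC'
    refine ⟨C, max (max T₀ 3) (Real.exp 1), fun T hT U h1 h2 δ hδ hδ1 => ?_⟩
    have hT1 : max T₀ 3 ≤ T := (le_max_left _ _).trans hT
    have hadm : Q97.MM.Adm T U := ⟨(le_max_right _ _).trans hT1, h1, h2⟩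
    have h3 := h0 T ((le_max_left _ _).trans hT1) U hadm δ hδ hδ1
    have hL := hadm.log
    have mN : MeasurableSet (nearZeros (δ * (A / Real.log T))) :=
      (Pool.Agent.Q80.ZM.NZ_closed (d := δ * (A / Real.log T)) (by positivity)).measurableSet
    have h4 : ∫⁻ t in nearZeros (δ * (A / Real.log T)),
        ENNReal.ofReal (‖riemannZeta (pt t)‖ ^ (2 * k) * w T U t) =
        ENNReal.ofReal (∫ t in nearZeros (δ * (A / Real.log T)),
          ‖riemannZeta (pt t)‖ ^ (2 * k) * w T U t) :=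
      (ofReal_integral_eq_lintegral_ofReal (hint T U hadm).integrableOn
        (Eventually.of_forall fun t => hnn T U t)).symm
    rw [← lintegral_indicator mN] at h4
    have h5 : ENNReal.ofReal (∫ t in nearZeros (δ * (A / Real.log T)),
        ‖riemannZeta (pt t)‖ ^ (2 * k) * w T U t) ≤
        ENNReal.ofReal (C * δ ^ (2 * k + 1) * J k T U) := by
      rw [← h4, eJ]
      exact h3
    have h6 := hJ0 T U
    exact (ENNReal.ofReal_le_ofReal_iff (by positivity)).1 h5

end Pool.Agent.Results.MP_112ba8_nt.LocalRegularity
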