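import Pool.Agent.Q97.MM.Fin

/-!
Moments of the Riemann zeta function in short Gaussian windows at the distance `a / log T` from
the critical line.
-/

set_option autoImplicit false

open MeasureTheory Filter Topology Set

namespace Pool.Agent.Results.MP_112ba8_nt.OffTheLine

/-- The `2k`-th moment of `ζ` on the line `Re s = 1/2 + a / log T`, in the Gaussian window with
centre `T` and width `U`. -/
noncomputable def J (k : ℕ) (T U a : ℝ) : ℝ :=
  ∫ t : ℝ, ‖riemannZeta (((1 / 2 + a / Real.log T : ℝ) : ℂ) + t * Complex.I)‖ ^ (2 * k) *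
    Real.exp (-((t - T) / U) ^ 2)

/-- 1. Two-sided bounds, for every `k`, uniform over all windows with `1 ≤ U ≤ T / log T`.
2. Every sequence of such windows has a subsequence along which the quotients
`J k T U a / J k T U 0` converge, for all real `a`, to the Laplace transform of a probability
measure on `[0, 2k]` which is symmetric about `k`.
3. If `∑_{a ∈ S} 1 / (1 + |a|)` diverges and the moments divided by some positive normalisation
`N j` converge to positive limits for all `a ∈ S`, then they do so for all real `a`; in particular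
on the critical line, where `a = 0`. -/
theorem result :
    (∀ (k : ℕ) (a ε : ℝ), 0 < ε → ∃ T₀ : ℝ, ∀ T : ℝ, T₀ ≤ T → ∀ U : ℝ, 1 ≤ U →
      U ≤ T / Real.log T →
        Real.exp (-(k * a)) - ε ≤ J k T U a / J k T U 0 ∧
        J k T U a / J k T U 0 ≤ (1 + Real.exp (-(2 * k * a))) / 2 + ε) ∧
    (∀ (k : ℕ) (T U : ℕ → ℝ), Tendsto T atTop atTop →
      (∀ j, 1 ≤ U j ∧ U j ≤ T j / Real.log (T j)) →
      ∃ φ : ℕ → ℕ, StrictMono φ ∧ ∃ ν : Measure ℝ, IsProbabilityMeasure ν ∧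
        ν (Icc 0 (2 * k : ℝ))ᶜ = 0 ∧ ν.map (fun u => 2 * (k : ℝ) - u) = ν ∧
        ∀ a : ℝ, Tendsto (fun j => J k (T (φ j)) (U (φ j)) a / J k (T (φ j)) (U (φ j)) 0) atTop
          (𝓝 (∫ u, Real.exp (-(a * u)) ∂ν))) ∧
    (∀ (k : ℕ) (S : Set ℝ), ¬ Summable (fun a : S => 1 / (1 + |(a : ℝ)|)) →
      ∀ T U N : ℕ → ℝ, Tendsto T atTop atTop →
      (∀ j, 1 ≤ U j ∧ U j ≤ T j / Real.log (T j)) →
      (∀ a ∈ S, ∃ l : ℝ, 0 < l ∧ Tendsto (fun j => J k (T j) (U j) a / N j) atTop (𝓝 l)) →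
      ∀ a : ℝ, ∃ l : ℝ, 0 < l ∧ Tendsto (fun j => J k (T j) (U j) a / N j) atTop (𝓝 l)) := by
  refine ⟨fun k a ε hε => Q97.MM.bounds k a hε, fun k T U hT hU => ?_,
    fun k S hS T U N hT hU h a => Q97.MM.transfer k hS hT hU h a⟩
  obtain ⟨φ, hφ, ν, hν, _, h2, h3, _, h5⟩ := Q97.MM.core k hT hU
  exact ⟨φ, hφ, ν, hν, h2, h3, h5⟩

end Pool.Agent.Results.MP_112ba8_nt.OffTheLine
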