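import Pool.Agent.Q63.RZ.Mx3

/-!
# High moments of the zeta function and short gaps between its zeros
-/

set_option autoImplicit false

open MeasureTheory Filter Topology Set

namespace Pool.Agent.Results.MP_112ba8_nt.ShortGaps

/-- The point `1/2 + it`. -/
noncomputable def pt (t : ℝ) : ℂ := 1 / 2 + t * Complex.I

/-- The Gaussian window with centre `T` and width `U`. -/
noncomputable def w (T U t : ℝ) : ℝ := Real.exp (-((t - T) / U) ^ 2)

/-- The `2k`-th moment of `ζ` on the critical line in the window. -/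
noncomputable def J (k : ℕ) (T U : ℝ) : ℝ := ∫ t : ℝ, ‖riemannZeta (pt t)‖ ^ (2 * k) * w T U t

/-- The heights at distance at most `r` from a zero on the critical line. -/
def nearZeros (r : ℝ) : Set ℝ := {t | ∃ γ : ℝ, riemannZeta (pt γ) = 0 ∧ |t - γ| ≤ r}

/-- The heights between two zeros on the critical line at distance at most `r`. -/
def shortGaps (r : ℝ) : Set ℝ := {t | ∃ γ γ' : ℝ, riemannZeta (pt γ) = 0 ∧
  riemannZeta (pt γ') = 0 ∧ γ ≤ t ∧ t ≤ γ' ∧ γ' - γ ≤ r}

/-- For every `δ > 0` there is a constant `C` such that for all `k ≥ 1` and `l₀` in `(0, 1]`, for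
all large `T`, all windows `1 ≤ U ≤ T / log T` and all `l` in `[l₀, 1]`: the heights at distance at
most `l π / log T` (`l` times half the average gap) from a zero on the critical line contribute at
most `C ((1 + δ) sin (π l / 2)) ^ (2k)` times the `2k`-th moment; those between two zeros at
distance at most `l` times the average gap `2 π / log T` contribute at most
`C ((1 + δ) cos (π √(1 - l²) / 2)) ^ (2k)` times the moment. -/
theorem result (δ : ℝ) (hδ : 0 < δ) : ∃ C : ℝ, ∀ l₀ : ℝ, 0 < l₀ → l₀ ≤ 1 → ∀ k : ℕ, 1 ≤ k →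
    ∃ T₀ : ℝ, ∀ T : ℝ, T₀ ≤ T → ∀ U : ℝ, 1 ≤ U → U ≤ T / Real.log T → ∀ l : ℝ, l₀ ≤ l → l ≤ 1 →
      (∫ t in nearZeros (l * Real.pi / Real.log T), ‖riemannZeta (pt t)‖ ^ (2 * k) * w T U t) ≤
        C * ((1 + δ) * Real.sin (Real.pi * l / 2)) ^ (2 * k) * J k T U ∧
      (∫ t in shortGaps (l * (2 * Real.pi / Real.log T)),
          ‖riemannZeta (pt t)‖ ^ (2 * k) * w T U t) ≤
        C * ((1 + δ) * Real.cos (Real.pi * Real.sqrt (1 - l ^ 2) / 2)) ^ (2 * k) * J k T U := by
  obtain ⟨C, _, hC⟩ := Q63.RZ.main hδ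
  refine ⟨C, fun l₀ h0 h1 k hk => ?_⟩
  obtain ⟨T₀, hT₀⟩ := eventually_atTop.mp (hC l₀ h0 h1 k hk)
  refine ⟨max T₀ 3, fun T hT U hU1 hU2 l hl hl1 => ?_⟩
  have hA : Q97.MM.Adm T U := ⟨(le_max_right _ _).trans hT, hU1, hU2⟩
  have key := hT₀ T ((le_max_left _ _).trans hT) U hA l hl hl1
  have e : ∀ t : ℝ, ((1 / 2 : ℝ) : ℂ) + t * Complex.I = pt t := by
    intro t; unfold pt; push_cast; ring
  have e1 : ∀ t : ℝ, (1 / 2 + Complex.I * t : ℂ) = pt t := by
    intro t; unfold pt; ring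
  have eJ : Q97.MM.JJ k T U (1 / 2) = J k T U := by
    unfold J Q97.MM.JJ
    congr 1
    funext t
    rw [e]
    rfl
  have eN : Q63.RZ.NearZ (l * Real.pi / Real.log T) = nearZeros (l * Real.pi / Real.log T) := by
    unfold Q63.RZ.NearZ nearZeros
    simp only [e1]
  have eS : Q63.RZ.ShortG (l * (2 * Real.pi / Real.log T)) =
      shortGaps (l * (2 * Real.pi / Real.log T)) := by
    unfold Q63.RZ.ShortG shortGaps
    simp only [e1]
  have ew : Q97.MM.wt T U = w T U := rfl
  rw [eJ, eN, eS, ew] at key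
  simp only [e] at key
  exact key

end Pool.Agent.Results.MP_112ba8_nt.ShortGaps
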